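import Mathlib
import Pool.Agent.V7H82.SA.Inv
import Pool.Agent.Results.MP_d61fbb_ag.DoublyHomogeneousH82

/-!
# The algebraic Sato-Tate conjecture from one Frobenius polynomial, in terms of invariant tensors

Let `A` be an abelian variety of any type (there is no condition on the endomorphisms, and they need not
be defined over the ground field) over a number field `K ⊆ ℂ`, `Γ` the Galois group of `K`, `H` the
rational homology. By the theorem of Deligne the Galois group acts on the rational Hodge tensors of `A`,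
in the same way for all primes `ℓ`. Consider the group over `ℚ`

  `AST = {g ∈ Sp(H) : g fixes all Hodge tensors of A which are fixed by Γ}`.

**Theorem.** Let `ℓ` be a prime number such that for one place of good reduction prime to `ℓ` the
Frobenius polynomial is the product of the minimal polynomials of good, pairwise flipped Weil numbers
(the conditions of `MP_d61fbb_ag.DoublyHomogeneousH82`: the conjugates are permuted doubly homogeneously,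
no condition on the slopes). Then
1. the `ℚ_ℓ`-space of the tensors in `(H^1(A, ℚ_ℓ)^{⊗ 2 n})(n)` which are fixed by the whole Galois group
   `Γ` is spanned by the Hodge tensors (rational tensors, independent of `ℓ`) which are fixed by `Γ`, for
   all `n`;
2. the group of all symplectic `g` over `ℚ_ℓ` which fix all tensors in the spaces
   `(H^1(A, ℚ_ℓ)^{⊗ 2 n})(n)` which are fixed by `Γ` is the group of the `ℚ_ℓ`-points of `AST`.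

The Zariski closure `G^{alg}_{ℓ,K}` of the image of `Γ` is reductive (known), and reductive groups are
determined by their invariant tensors, so the group in 2 is `G^{alg}_{ℓ,K} ∩ Sp` (this is not formalised);
for all but finitely many `ℓ` this is the group `G^{alg}_{ℓ,K,1}` of the problem, the Zariski closure of
the image of the kernel of the cyclotomic character `χ` (for `ℓ` ramified in the field over which
`G^{alg}_{ℓ,K}` gets connected the latter can have fewer components). So 2 is the equality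
`AST_{ℚ_ℓ} = G^{alg}_{ℓ,K,1}` of the conjecture, with all connected components; the group `AST` is the same
for all `ℓ`. One place `v` gives all `ℓ` different from the residue characteristic of `v`.

The proof. The invariant tensors are combinations of Hodge tensors by `MP_d61fbb_ag.DoublyHomogeneousH82`.
Such a combination, written in a `ℚ`-basis of `ℚ_ℓ`, is a combination of rational Hodge tensors, which
are fixed too (`V7H82/SA/Inv`).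
-/

set_option autoImplicit false

namespace Pool.Agent.Results.MP_7a3e68_ag.OneFrobeniusH82

open NumberField Module TensorProduct Pool.Agent.H204R3.GP Pool.Agent.W516.MTD
  Pool.Agent.W527.TateRing Pool.Agent.TH776.FM Pool.Agent.V7H82.TG

section defs

variable {H T Γ : Type} [AddCommGroup H] [Module ℚ H] [AddCommGroup T] [Module ℂ T] [Group Γ]

/-- The multilinear form `φ` over `ℚ_ℓ` is the realization of the rational form `ψ`. -/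
def Realizes {ℓ : ℕ} [Fact ℓ.Prime] {n : ℕ}
    (ψ : MultilinearMap ℚ (fun _ : Fin n × Fin 2 => H) ℚ)
    (φ : MultilinearMap ℚ_[ℓ] (fun _ : Fin n × Fin 2 => ℚ_[ℓ] ⊗[ℚ] H) ℚ_[ℓ]) : Prop :=
  ∀ w : Fin n × Fin 2 → H, φ (fun l => (1 : ℚ_[ℓ]) ⊗ₜ[ℚ] w l) = algebraMap ℚ ℚ_[ℓ] (ψ w)

/-- The action of the Galois group on `(H^1(A, ℚ_ℓ)^{⊗ 2 n})(n)` (the element `s` acts as the inverse of
`s` in the usual notation). -/
noncomputable def galoisAction {ℓ : ℕ} [Fact ℓ.Prime]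
    (ρ : Representation ℚ_[ℓ] Γ (ℚ_[ℓ] ⊗[ℚ] H)) (χ : Γ →* ℚ_[ℓ]) (n : ℕ) (s : Γ)
    (φ : MultilinearMap ℚ_[ℓ] (fun _ : Fin n × Fin 2 => ℚ_[ℓ] ⊗[ℚ] H) ℚ_[ℓ]) :
    MultilinearMap ℚ_[ℓ] (fun _ : Fin n × Fin 2 => ℚ_[ℓ] ⊗[ℚ] H) ℚ_[ℓ] :=
  (χ s ^ n)⁻¹ • φ.compLinearMap fun _ => ρ s

/-- The tensor `φ` in `(H^1(A, ℚ_ℓ)^{⊗ 2 n})(n)` is fixed by the Galois group. -/
def IsFixed {ℓ : ℕ} [Fact ℓ.Prime] (ρ : Representation ℚ_[ℓ] Γ (ℚ_[ℓ] ⊗[ℚ] H)) (χ : Γ →* ℚ_[ℓ])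
    (n : ℕ) (φ : MultilinearMap ℚ_[ℓ] (fun _ : Fin n × Fin 2 => ℚ_[ℓ] ⊗[ℚ] H) ℚ_[ℓ]) : Prop :=
  ∀ s : Γ, galoisAction ρ χ n s φ = φ

/-- The theorem of Deligne: the Galois group acts on the rational Hodge tensors, in the same way for
all primes `ℓ`. -/
def ActsOnHodgeTensors (per : H →+ T)
    (ρ : ∀ (ℓ : ℕ) [Fact ℓ.Prime], Representation ℚ_[ℓ] Γ (ℚ_[ℓ] ⊗[ℚ] H))
    (χ : ∀ (ℓ : ℕ) [Fact ℓ.Prime], Γ →* ℚ_[ℓ]) : Prop :=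
  ∀ (n : ℕ) (ψ : MultilinearMap ℚ (fun _ : Fin n × Fin 2 => H) ℚ), IsHodgeTensor per ψ →
    ∀ s : Γ, ∃ ψ' : MultilinearMap ℚ (fun _ : Fin n × Fin 2 => H) ℚ, IsHodgeTensor per ψ' ∧
      ∀ (ℓ : ℕ) [Fact ℓ.Prime],
        ∀ φ : MultilinearMap ℚ_[ℓ] (fun _ : Fin n × Fin 2 => ℚ_[ℓ] ⊗[ℚ] H) ℚ_[ℓ],
          Realizes ψ φ → Realizes ψ' (galoisAction (ρ ℓ) (χ ℓ) n s φ)

/-- The rational Hodge tensors which are fixed by the Galois group, for all primes `ℓ`. -/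
def IsFixedHodgeTensor (per : H →+ T)
    (ρ : ∀ (ℓ : ℕ) [Fact ℓ.Prime], Representation ℚ_[ℓ] Γ (ℚ_[ℓ] ⊗[ℚ] H))
    (χ : ∀ (ℓ : ℕ) [Fact ℓ.Prime], Γ →* ℚ_[ℓ]) (n : ℕ)
    (ψ : MultilinearMap ℚ (fun _ : Fin n × Fin 2 => H) ℚ) : Prop :=
  IsHodgeTensor per ψ ∧ ∀ (ℓ : ℕ) [Fact ℓ.Prime],
    ∀ φ : MultilinearMap ℚ_[ℓ] (fun _ : Fin n × Fin 2 => ℚ_[ℓ] ⊗[ℚ] H) ℚ_[ℓ],
      Realizes ψ φ → IsFixed (ρ ℓ) (χ ℓ) n φ

/-- At one place prime to `ℓ` the Frobenius polynomial is the product of the minimal polynomials of good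
and pairwise flipped Weil numbers. -/
def HasGoodFrobenius [FiniteDimensional ℚ H] {ℓ : ℕ} [Fact ℓ.Prime]
    (ρ : Representation ℚ_[ℓ] Γ (ℚ_[ℓ] ⊗[ℚ] H)) (χ : Γ →* ℚ_[ℓ]) : Prop :=
  ∃ (p : ℕ) (_ : Fact p.Prime) (m : ℕ) (ι : Type) (_ : Fintype ι) (X : ι → WeilNumber p m) (γ : Γ),
    (∀ i, IsGoodWeilNumber (p ^ m) (X i).π) ∧ PairwiseFlipped X ∧ χ γ = (p ^ m : ℕ) ∧
      (ρ γ).charpoly = (∏ i, minpoly ℚ (X i).π).map (algebraMap ℚ ℚ_[ℓ])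

/-- The symplectic `g` which fix all Galois invariant tensors in the spaces
`(H^1(A, ℚ_ℓ)^{⊗ 2 n})(n)`. -/
def FixesInvariants {ℓ : ℕ} [Fact ℓ.Prime] (ρ : Representation ℚ_[ℓ] Γ (ℚ_[ℓ] ⊗[ℚ] H))
    (χ : Γ →* ℚ_[ℓ]) (ω : ℚ_[ℓ] ⊗[ℚ] H →ₗ[ℚ_[ℓ]] ℚ_[ℓ] ⊗[ℚ] H →ₗ[ℚ_[ℓ]] ℚ_[ℓ])
    (g : ℚ_[ℓ] ⊗[ℚ] H →ₗ[ℚ_[ℓ]] ℚ_[ℓ] ⊗[ℚ] H) : Prop :=
  (∀ u v, ω (g u) (g v) = ω u v) ∧ ∀ (n : ℕ)
    (φ : MultilinearMap ℚ_[ℓ] (fun _ : Fin n × Fin 2 => ℚ_[ℓ] ⊗[ℚ] H) ℚ_[ℓ]),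
      IsFixed ρ χ n φ → φ.compLinearMap (fun _ => g) = φ

/-- The points over `ℚ_ℓ` of the algebraic Sato-Tate group: the symplectic `g` which fix the rational
Hodge tensors fixed by the Galois group. -/
def InSatoTate (per : H →+ T)
    (ρ : ∀ (ℓ : ℕ) [Fact ℓ.Prime], Representation ℚ_[ℓ] Γ (ℚ_[ℓ] ⊗[ℚ] H))
    (χ : ∀ (ℓ : ℕ) [Fact ℓ.Prime], Γ →* ℚ_[ℓ]) {ℓ : ℕ} [Fact ℓ.Prime]
    (ω : ℚ_[ℓ] ⊗[ℚ] H →ₗ[ℚ_[ℓ]] ℚ_[ℓ] ⊗[ℚ] H →ₗ[ℚ_[ℓ]] ℚ_[ℓ])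
    (g : ℚ_[ℓ] ⊗[ℚ] H →ₗ[ℚ_[ℓ]] ℚ_[ℓ] ⊗[ℚ] H) : Prop :=
  (∀ u v, ω (g u) (g v) = ω u v) ∧ ∀ (n : ℕ) (ψ : MultilinearMap ℚ (fun _ : Fin n × Fin 2 => H) ℚ),
    IsFixedHodgeTensor per ρ χ n ψ →
      ∀ φ : MultilinearMap ℚ_[ℓ] (fun _ : Fin n × Fin 2 => ℚ_[ℓ] ⊗[ℚ] H) ℚ_[ℓ],
        Realizes ψ φ → φ.compLinearMap (fun _ => g) = φ

end defs

variable {H T Γ : Type} [AddCommGroup H] [Module ℚ H] [FiniteDimensional ℚ H] [AddCommGroup T]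
  [Module ℂ T] [Group Γ]

lemma ext_form {ℓ : ℕ} [Fact ℓ.Prime] {n : ℕ}
    {φ φ' : MultilinearMap ℚ_[ℓ] (fun _ : Fin n × Fin 2 => ℚ_[ℓ] ⊗[ℚ] H) ℚ_[ℓ]}
    (h : ∀ w : Fin n × Fin 2 → H, φ (fun l => (1 : ℚ_[ℓ]) ⊗ₜ[ℚ] w l) =
      φ' (fun l => (1 : ℚ_[ℓ]) ⊗ₜ[ℚ] w l)) : φ = φ' := by
  refine Basis.ext_multilinear (fun _ => (Module.finBasis ℚ H).baseChange ℚ_[ℓ]) fun v => ?_
  have h1 := h fun l => Module.finBasis ℚ H (v l)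
  simpa [Basis.baseChange_apply] using h1

lemma chi_ne {ℓ : ℕ} [Fact ℓ.Prime] (χ : Γ →* ℚ_[ℓ]) (s : Γ) : χ s ≠ 0 := by
  intro h0
  have h1 : χ s * χ s⁻¹ = 1 := by rw [← map_mul, mul_inv_cancel, map_one]
  rw [h0, zero_mul] at h1
  exact zero_ne_one h1

omit [FiniteDimensional ℚ H] in
lemma act_apply {ℓ : ℕ} [Fact ℓ.Prime] (ρ : Representation ℚ_[ℓ] Γ (ℚ_[ℓ] ⊗[ℚ] H))
    (χ : Γ →* ℚ_[ℓ]) (n : ℕ) (s : Γ)
    (φ : MultilinearMap ℚ_[ℓ] (fun _ : Fin n × Fin 2 => ℚ_[ℓ] ⊗[ℚ] H) ℚ_[ℓ])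
    (v : Fin n × Fin 2 → ℚ_[ℓ] ⊗[ℚ] H) :
    galoisAction ρ χ n s φ v = (χ s ^ n)⁻¹ * φ (fun l => ρ s (v l)) := rfl

/-- **Invariant tensors.** -/
theorem result (per : H →+ T) (ω₀ : H →ₗ[ℚ] H →ₗ[ℚ] ℚ)
    (ρ : ∀ (ℓ : ℕ) [Fact ℓ.Prime], Representation ℚ_[ℓ] Γ (ℚ_[ℓ] ⊗[ℚ] H))
    (χ : ∀ (ℓ : ℕ) [Fact ℓ.Prime], Γ →* ℚ_[ℓ])
    (ω : ∀ (ℓ : ℕ) [Fact ℓ.Prime], ℚ_[ℓ] ⊗[ℚ] H →ₗ[ℚ_[ℓ]] ℚ_[ℓ] ⊗[ℚ] H →ₗ[ℚ_[ℓ]] ℚ_[ℓ])
    (hA : ∀ (ℓ : ℕ) [Fact ℓ.Prime], IsAbelianVariety per ω₀ (ρ ℓ) (χ ℓ) (ω ℓ))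
    (hH : ActsOnHodgeTensors per ρ χ) (ℓ : ℕ) [Fact ℓ.Prime] (hF : HasGoodFrobenius (ρ ℓ) (χ ℓ)) :
    (∀ (n : ℕ) (φ : MultilinearMap ℚ_[ℓ] (fun _ : Fin n × Fin 2 => ℚ_[ℓ] ⊗[ℚ] H) ℚ_[ℓ]),
      IsFixed (ρ ℓ) (χ ℓ) n φ ↔ φ ∈ Submodule.span ℚ_[ℓ] {φ' | ∃ ψ,
        IsFixedHodgeTensor per ρ χ n ψ ∧ Realizes ψ φ'}) ∧
    ∀ g : ℚ_[ℓ] ⊗[ℚ] H →ₗ[ℚ_[ℓ]] ℚ_[ℓ] ⊗[ℚ] H,
      FixesInvariants (ρ ℓ) (χ ℓ) (ω ℓ) g ↔ InSatoTate per ρ χ (ω ℓ) g := by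
  obtain ⟨p, hp, m, ι, _, X, γ, hX, hX', hχ, hγ⟩ := hF
  have key : ∀ (n : ℕ) (φ : MultilinearMap ℚ_[ℓ] (fun _ : Fin n × Fin 2 => ℚ_[ℓ] ⊗[ℚ] H) ℚ_[ℓ]),
      IsFixed (ρ ℓ) (χ ℓ) n φ → φ ∈ Submodule.span ℚ_[ℓ] {φ' | ∃ ψ,
        IsFixedHodgeTensor per ρ χ n ψ ∧ Realizes ψ φ'} := by
    intro n φ hφ
    have hφ' : ∀ (s : Γ) (v : Fin n × Fin 2 → ℚ_[ℓ] ⊗[ℚ] H),
        φ (fun l => ρ ℓ s (v l)) = χ ℓ s ^ n * φ v := by
      intro s v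
      have h1 := congrArg (fun f => f v) (hφ s)
      simp only [act_apply] at h1
      rw [← h1, mul_inv_cancel_left₀ (pow_ne_zero _ (chi_ne _ s))]
    have h1 := Pool.Agent.Results.MP_d61fbb_ag.DoublyHomogeneousH82.result p m ℓ X hX hX' per ω₀
      (ρ ℓ) (χ ℓ) (ω ℓ) (hA ℓ) γ hχ hγ n φ ⟨⊤, inferInstance, fun s _ v => hφ' s v⟩
    have h2 := Pool.Agent.V7H82.SA.inv_span per (ρ ℓ) (χ ℓ) (fun ψ hψ s => by
      obtain ⟨ψ', -, h3⟩ := hH n ψ hψ s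
      refine ⟨ψ', fun φ₁ hφ₁ w => ?_⟩
      have h4 := h3 ℓ φ₁ hφ₁ w
      rw [act_apply] at h4
      rw [← h4, mul_inv_cancel_left₀ (pow_ne_zero _ (chi_ne _ s))]) φ hφ' h1
    refine Submodule.span_mono ?_ h2
    rintro φ₁ ⟨ψ, hψ, h3, h4⟩
    refine ⟨ψ, ⟨hψ, fun ℓ' _ φ₂ hφ₂ s => ?_⟩, h4⟩
    obtain ⟨ψ', -, h5⟩ := hH n ψ hψ s
    have h6 : ψ' = ψ := by
      ext w
      have h7 := h5 ℓ φ₁ h4 w
      rw [act_apply, h3, inv_mul_cancel_left₀ (pow_ne_zero _ (chi_ne _ s))] at h7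
      exact ((algebraMap ℚ ℚ_[ℓ]).injective h7).symm
    refine ext_form fun w => ?_
    rw [h5 ℓ' φ₂ hφ₂ w, hφ₂ w, h6]
  have key' : ∀ (n : ℕ) (φ : MultilinearMap ℚ_[ℓ] (fun _ : Fin n × Fin 2 => ℚ_[ℓ] ⊗[ℚ] H) ℚ_[ℓ]),
      φ ∈ Submodule.span ℚ_[ℓ] {φ' | ∃ ψ, IsFixedHodgeTensor per ρ χ n ψ ∧ Realizes ψ φ'} →
        IsFixed (ρ ℓ) (χ ℓ) n φ := by
    intro n φ hφ s
    induction hφ using Submodule.span_induction with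
    | mem x hx =>
      obtain ⟨ψ, h1, h2⟩ := hx
      exact h1.2 ℓ x h2 s
    | zero => ext v; simp [act_apply]
    | add x y _ _ h1 h2 =>
      ext v
      have h1' := congrArg (fun f => f v) h1
      have h2' := congrArg (fun f => f v) h2
      simp only [act_apply] at h1' h2' ⊢
      rw [add_apply, add_apply, mul_add, h1', h2']
    | smul a x _ h1 =>
      ext v
      have h1' := congrArg (fun f => f v) h1
      simp only [act_apply] at h1' ⊢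
      rw [smul_apply, smul_apply, smul_eq_mul, smul_eq_mul, mul_left_comm, h1']
  refine ⟨fun n φ => ⟨key n φ, key' n φ⟩, fun g => and_congr_right fun _ => ⟨?_, ?_⟩⟩
  · intro h n ψ hψ φ hφ
    exact h n φ (hψ.2 ℓ φ hφ)
  · intro h n φ hφ
    have h1 := key n φ hφ
    induction h1 using Submodule.span_induction with
    | mem x hx =>
      obtain ⟨ψ, h1, h2⟩ := hx
      exact h n ψ h1 x h2
    | zero => rfl
    | add x y hx hy h1 h2 =>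
      have h1' := h1 (key' n x hx)
      have h2' := h2 (key' n y hy)
      ext v
      have h1'' := congrArg (fun f => f v) h1'
      have h2'' := congrArg (fun f => f v) h2'
      simp only [MultilinearMap.compLinearMap_apply] at h1'' h2'' ⊢
      rw [add_apply, add_apply, h1'', h2'']
    | smul a x hx h1 =>
      have h1' := h1 (key' n x hx)
      ext v
      have h1'' := congrArg (fun f => f v) h1'
      simp only [MultilinearMap.compLinearMap_apply] at h1'' ⊢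
      rw [smul_apply, smul_apply, h1'']

end Pool.Agent.Results.MP_7a3e68_ag.OneFrobeniusH82
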